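import Mathlib

namespace Pool.Agent.Results.MP_028983_lc.Delta

open Set Cardinal

universe u

/-- the ordinals below the successor cardinal -/
abbrev Kp (κ : Cardinal.{u}) : Type u := (Order.succ κ).ord.ToType

/-- injections from an ordinal below the successor cardinal into the cardinal -/
abbrev Inj (κ : Cardinal.{u}) : Type u := Σ α : Kp κ, (Iio α ↪ κ.ord.ToType)

/-- the weak Delta-system principle -/
def Delta (κ : Cardinal.{u}) : Prop :=
  ∀ D : (f : Inj κ) → Set (Iio f.1), (∀ f, #(D f) < κ) →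
    ∃ F : Kp κ → Inj κ, StrictMono (fun a => (F a).1) ∧
      ∀ (a b x : Kp κ) (ha : x < (F a).1) (hb : x < (F b).1),
        (⟨x, ha⟩ : Iio (F a).1) ∈ D (F a) → (⟨x, hb⟩ : Iio (F b).1) ∈ D (F b) →
          (F a).2 ⟨x, ha⟩ = (F b).2 ⟨x, hb⟩

section general

variable {K V : Type u} [LinearOrder K] [WellFoundedLT K] [LinearOrder V] [WellFoundedLT V]

theorem key [Infinite V] (hb : ∀ s : Set K, #s ≤ #V → ∃ x, ∀ y ∈ s, y < x)
    (hc : ∀ η : K, #(Iio η) ≤ #V) (D : (f : Σ α : K, (Iio α ↪ V)) → Set (Iio f.1))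
    (hD : ∀ f, #(D f) < #V) :
    ∃ (η : K) (h : K → V), ∀ γ : K, ∃ f : Σ α : K, (Iio α ↪ V), γ ≤ f.1 ∧
      (∀ x : Iio f.1, x.1 < η → f.2 x = h x.1) ∧ ∀ x ∈ D f, x.1 < η ∨ γ ≤ x.1 := by
  classical
  by_contra H
  push Not at H
  choose Γ hΓ using H
  obtain ⟨k0, -⟩ := hb ∅ (by simp)
  have : Nonempty K := ⟨k0⟩
  let z : K := wellFounded_lt.min univ univ_nonempty
  have hz : ∀ x, ¬ x < z := fun x => wellFounded_lt.not_lt_min univ (mem_univ x)
  have hc' : ∀ η : K, ∃ c : K → V, InjOn c (Iio η) := fun η => by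
    obtain ⟨e⟩ := (Cardinal.le_def _ _).1 (hc η)
    refine ⟨fun x => if h : x < η then e ⟨x, h⟩ else Classical.arbitrary V, fun x hx y hy h => ?_⟩
    simp only [dif_pos (mem_Iio.1 hx), dif_pos (mem_Iio.1 hy)] at h
    exact congrArg Subtype.val (e.injective h)
  choose c hc'' using hc'
  obtain ⟨e⟩ : Nonempty (V × V ↪ V) := by
    rw [← Cardinal.le_def]
    simp [Cardinal.mul_eq_self (Cardinal.aleph0_le_mk V)]
  have hub : ∀ g : V → K, (upperBounds (range g)).Nonempty := fun g => by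
    obtain ⟨x, hx⟩ := hb (range g) mk_range_le
    exact ⟨x, fun y hy => (hx y hy).le⟩
  let lub : (V → K) → K := fun g => wellFounded_lt.min _ (hub g)
  have lub1 : ∀ g j, g j ≤ lub g := fun g j => wellFounded_lt.min_mem _ (hub g) ⟨j, rfl⟩
  have lub2 : ∀ g x, x < lub g → ∃ j, x < g j := fun g x hx => by
    by_contra hn
    push Not at hn
    exact wellFounded_lt.not_lt_min _ (show x ∈ upperBounds (range g) from
      fun y ⟨j, hj⟩ => hj ▸ hn j) hx
  let Φ : (V → K) → K → V := fun g x =>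
    if h : {j | x < g j}.Nonempty then
      e (wellFounded_lt.min _ h, c (g (wellFounded_lt.min _ h)) x) else Classical.arbitrary V
  have Φeq : ∀ g x j, x < g j → (∀ i, i < j → ¬ x < g i) → Φ g x = e (j, c (g j) x) := by
    intro g x j h1 h2
    have hne : {j | x < g j}.Nonempty := ⟨j, h1⟩
    have : wellFounded_lt.min _ hne = j := by
      apply le_antisymm (wellFounded_lt.min_le (s := {j | x < g j}) h1)
      by_contra hn
      exact h2 _ (not_le.1 hn) (wellFounded_lt.min_mem _ hne)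
    simp only [Φ, dif_pos hne, this]
  have least : ∀ (g : V → K) x, (∃ j, x < g j) → ∃ j, x < g j ∧ ∀ i, i < j → ¬ x < g i := by
    intro g x h
    exact ⟨wellFounded_lt.min {j | x < g j} h, wellFounded_lt.min_mem {j | x < g j} h,
      fun i hi hx => wellFounded_lt.not_lt_min {j | x < g j} hx hi⟩
  let step : (V → K) → K := fun g => Γ (lub g) (Φ g)
  let g : V → K := wellFounded_lt.fix fun i rec => step fun j => if h : j < i then rec j h else z
  let cut : V → V → K := fun i j => if j < i then g j else z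
  have hg : ∀ i, g i = step (cut i) := fun i => by
    have := wellFounded_lt.fix_eq
      (fun (i : V) (rec : ∀ j, j < i → K) => step fun j => if h : j < i then rec j h else z) i
    refine this.trans ?_
    congr 1
  have inj : InjOn (Φ g) (Iio (lub g)) := by
    intro x hx y hy h
    obtain ⟨j, h1, h2⟩ := least g x (lub2 g x hx)
    obtain ⟨j', h1', h2'⟩ := least g y (lub2 g y hy)
    rw [Φeq g x j h1 h2, Φeq g y j' h1' h2'] at h
    have := e.injective h
    obtain ⟨rfl, h3⟩ := Prod.mk.inj this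
    exact hc'' _ h1 h1' h3
  let f : Σ α : K, (Iio α ↪ V) :=
    ⟨lub g, ⟨fun x => Φ g x.1, fun x y h => Subtype.ext (inj x.2 y.2 h)⟩⟩
  have hx : ∀ i, ∃ x ∈ D f, lub (cut i) ≤ x.1 ∧ x.1 < g i := by
    intro i
    have := hΓ (lub (cut i)) (Φ (cut i)) f (by
      have := lub1 g i
      rw [hg i] at this
      exact this) (by
      intro x hx
      obtain ⟨j, h1, h2⟩ := least (cut i) x.1 (lub2 _ _ hx)
      have hj : j < i := by
        by_contra hn
        simp only [cut, if_neg hn] at h1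
        exact hz _ h1
      have e1 : cut i j = g j := if_pos hj
      rw [Φeq _ _ j h1 h2, e1]
      refine Φeq g _ j (e1 ▸ h1) fun i' hi' => ?_
      have := h2 i' hi'
      simp only [cut, if_pos (hi'.trans hj)] at this
      exact this)
    obtain ⟨x, h1, h2, h3⟩ := this
    exact ⟨x, h1, h2, by rw [hg i]; exact h3⟩
  choose x hx1 hx2 hx3 using hx
  have sm : StrictMono fun i => (x i).1 := by
    intro i i' h
    have := lub1 (cut i') i
    simp only [cut, if_pos h] at this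
    exact (hx3 i).trans_le (this.trans (hx2 i'))
  have : #V ≤ #(D f) := mk_le_of_injective (f := fun i => (⟨x i, hx1 i⟩ : D f)) fun i j h =>
    sm.injective (congrArg (fun t : D f => t.1.1) h)
  exact absurd (hD f) (not_lt.2 this)

theorem general [Infinite V] (hb : ∀ s : Set K, #s ≤ #V → ∃ x, ∀ y ∈ s, y < x)
    (hc : ∀ η : K, #(Iio η) ≤ #V) (D : (f : Σ α : K, (Iio α ↪ V)) → Set (Iio f.1))
    (hD : ∀ f, #(D f) < #V) :
    ∃ F : K → Σ α : K, (Iio α ↪ V), StrictMono (fun a => (F a).1) ∧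
      ∀ (a b x : K) (ha : x < (F a).1) (hb : x < (F b).1),
        (⟨x, ha⟩ : Iio (F a).1) ∈ D (F a) → (⟨x, hb⟩ : Iio (F b).1) ∈ D (F b) →
          (F a).2 ⟨x, ha⟩ = (F b).2 ⟨x, hb⟩ := by
  classical
  obtain ⟨η, h, H⟩ := key hb hc D hD
  choose pick p1 p2 p3 using H
  have hub : ∀ (a : K) (g : Iio a → K), ∃ x, ∀ b, g b < x := fun a g => by
    obtain ⟨x, hx⟩ := hb (range g) (mk_range_le.trans (hc a))
    exact ⟨x, fun b => hx _ ⟨b, rfl⟩⟩
  choose ub hub using hub
  let F : K → Σ α : K, (Iio α ↪ V) :=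
    wellFounded_lt.fix fun a rec => pick (ub a fun b => (rec b.1 b.2).1)
  have hF : ∀ a, F a = pick (ub a fun b => (F b.1).1) := fun a =>
    wellFounded_lt.fix_eq (fun (a : K) (rec : ∀ b, b < a → Σ α : K, (Iio α ↪ V)) =>
      pick (ub a fun b => (rec b.1 b.2).1)) a
  have spec : ∀ a, ∃ γ, (∀ b, b < a → (F b).1 < γ) ∧ γ ≤ (F a).1 ∧
      (∀ x : Iio (F a).1, x.1 < η → (F a).2 x = h x.1) ∧ ∀ x ∈ D (F a), x.1 < η ∨ γ ≤ x.1 := by
    intro a
    refine ⟨ub a fun b => (F b.1).1, fun b hb => hub a (fun b => (F b.1).1) ⟨b, hb⟩, ?_⟩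
    rw [hF a]
    exact ⟨p1 _, p2 _, p3 _⟩
  choose γ s1 s2 s3 s4 using spec
  refine ⟨F, fun a b hab => (s1 b a hab).trans_le (s2 b), ?_⟩
  intro a b x ha hb' da db
  rcases lt_trichotomy a b with hab | rfl | hab
  · rcases s4 b _ db with h1 | h1
    · rw [s3 a _ h1, s3 b _ h1]
    · exact absurd (ha.trans (s1 b a hab)) (not_lt.2 h1)
  · rfl
  · rcases s4 a _ da with h1 | h1
    · rw [s3 a _ h1, s3 b _ h1]
    · exact absurd (hb'.trans (s1 a b hab)) (not_lt.2 h1)

end general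

theorem delta_all (κ : Cardinal.{u}) (hκ : ℵ₀ ≤ κ) : Delta κ := by
  intro D hD
  have hV : #κ.ord.ToType = κ := mk_ord_toType κ
  have : Infinite κ.ord.ToType := Cardinal.infinite_iff.2 (hV.symm ▸ hκ)
  refine general (K := Kp κ) (V := κ.ord.ToType) ?_ ?_ D (fun f => by rw [hV]; exact hD f)
  · intro s hs
    rw [← not_isCofinal_iff]
    intro h
    have h1 := Order.cof_le h
    rw [Ordinal.cof_toType, (isRegular_succ hκ).cof_ord, hV] at *
    exact absurd (h1.trans hs) (not_le.2 (Order.lt_succ κ))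
  · intro η
    have := mk_Iio_lt η (by simp)
    rw [mk_ord_toType] at this
    rw [hV]
    exact Order.lt_succ_iff.1 this

theorem result : (∀ κ : Cardinal.{u}, ℵ₀ ≤ κ → Delta κ) ∧
    ∃ κ : Cardinal.{u}, ℵ₀ ≤ κ ∧ Delta κ ∧ κ < κ ^< κ := by
  refine ⟨delta_all, ℵ_ Ordinal.omega0, aleph0_le_aleph _, delta_all _ (aleph0_le_aleph _), ?_⟩
  have h := lt_power_cof_ord (aleph0_le_aleph (Ordinal.omega0 : Ordinal.{u}))
  refine h.trans_le (le_powerlt _ ?_)
  rw [ord_aleph, Ordinal.cof_omega Ordinal.isSuccLimit_omega0, Ordinal.cof_omega0, ← aleph_zero]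
  exact aleph_lt_aleph.2 Ordinal.omega0_pos

end Pool.Agent.Results.MP_028983_lc.Delta
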